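import Mathlib
import Pool.Agent.N963.KL.Stm

/-!
# KL/LOW: lower bound for perturbed zeta series (helper713)
-/

set_option autoImplicit false

namespace Pool.Agent.N713.KL

open Complex Filter Topology Finset

/-- a lower bound for zeta in a half plane -/
theorem zeta_lower {σ : ℝ} (hσ : 1 < σ) : ∃ c : ℝ, 0 < c ∧ ∀ s : ℂ, σ ≤ s.re →
    c ≤ ‖riemannZeta s‖ := by
  set f : ℕ → ℂ := fun n => ((ArithmeticFunction.moebius n : ℤ) : ℂ) with hf
  have hsum : Summable fun n => ‖LSeries.term f (σ : ℂ) n‖ := by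
    have h : LSeriesSummable f (σ : ℂ) :=
      ArithmeticFunction.LSeriesSummable_moebius_iff.2 (by simpa using hσ)
    exact h.norm
  set B : ℝ := ∑' n, ‖LSeries.term f (σ : ℂ) n‖ with hB
  have hB0 : 0 ≤ B := tsum_nonneg fun n => norm_nonneg _
  have hle : ∀ s : ℂ, σ ≤ s.re → ‖LSeries f s‖ ≤ B := by
    intro s hs
    have h1 : ∀ n, ‖LSeries.term f s n‖ ≤ ‖LSeries.term f (σ : ℂ) n‖ := fun n =>
      LSeries.norm_term_le_of_re_le_re f (by simpa using hs) n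
    unfold LSeries
    exact tsum_of_norm_bounded hsum.hasSum h1
  refine ⟨1 / (B + 1), by positivity, fun s hs => ?_⟩
  have hs1 : 1 < s.re := lt_of_lt_of_le hσ hs
  have h1 := ArithmeticFunction.LSeries_zeta_mul_Lseries_moebius hs1
  rw [ArithmeticFunction.LSeries_zeta_eq_riemannZeta hs1] at h1
  have h2 : ‖riemannZeta s‖ * ‖LSeries f s‖ = 1 := by
    rw [← norm_mul, hf, h1, norm_one]
  rw [div_le_iff₀ (by positivity)]
  have h3 := hle s hs
  nlinarith [norm_nonneg (riemannZeta s), norm_nonneg (LSeries f s)]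

theorem norm_cpow' (n : ℕ) (w : ℂ) : ‖((n : ℂ) + 1) ^ w‖ = ((n : ℝ) + 1) ^ w.re := by
  have h := Complex.norm_natCast_cpow_of_pos (n := n + 1) (Nat.succ_pos n) w
  push_cast at h
  exact h

theorem low : Pool.Agent.N963.KL.S_LOW := by
  intro κ' C hκ
  set ε : ℝ := (κ' - 1 / 2) / 2 with hε
  have hε0 : 0 < ε := by rw [hε]; linarith
  set σ : ℝ := 1 / 2 + κ' - ε with hσ
  have hσ1 : 1 < σ := by rw [hσ, hε]; linarith
  obtain ⟨c1, hc1, hzeta⟩ := zeta_lower hσ1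
  set a : ℕ → ℝ := fun n => ((n : ℝ) + 1) ^ (-σ) with ha
  have ha0 : ∀ n, 0 ≤ a n := fun n => by positivity
  have hasum : Summable a := by
    have h := (Real.summable_nat_rpow (p := -σ)).2 (by linarith)
    have h2 := (summable_nat_add_iff 1).2 h
    refine h2.congr fun n => ?_
    rw [ha]
    push_cast
    rfl
  have htail := tendsto_sum_nat_add a
  have hC0 : 0 < |C| + 1 := by positivity
  obtain ⟨N, hN⟩ : ∃ N : ℕ, ∑' k, a (k + N) < c1 / (4 * (|C| + 1)) := by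
    have h := (tendsto_order.1 htail).2 (c1 / (4 * (|C| + 1))) (by positivity)
    exact h.exists
  set PN : ℝ := ∑ n ∈ range N, ((n : ℝ) + 1) ^ (-(1 / 2) + ε) with hPN
  have hPN0 : 0 ≤ PN := Finset.sum_nonneg fun n _ => by positivity
  refine ⟨c1 / 2, c1 / (4 * (PN + 1)), N, by positivity, by positivity, ?_⟩
  intro τ q hτ hq hη z hz
  set s : ℂ := 1 / 2 + I * z + q with hs
  have hsre : σ ≤ s.re := by
    have : s.re = 1 / 2 - z.im + q.re := by
      rw [hs]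
      simp
      ring
    rw [this, hσ]
    linarith
  -- the sizes
  have hn1 : ∀ n : ℕ, (1 : ℝ) ≤ (n : ℝ) + 1 := fun n => by
    have : (0 : ℝ) ≤ (n : ℝ) := Nat.cast_nonneg n
    linarith
  have hre : (-(1 / 2) - I * z).re = -(1 / 2) + z.im := by
    simp
  have hz1 : ∀ n : ℕ, ‖((n : ℂ) + 1) ^ (-(1 / 2) - I * z)‖ ≤ ((n : ℝ) + 1) ^ (-(1 / 2) + ε) := by
    intro n
    rw [norm_cpow', hre]
    exact Real.rpow_le_rpow_of_exponent_le (hn1 n) (by linarith)
  have hq1 : ∀ n : ℕ, ‖((n : ℂ) + 1) ^ (-q)‖ ≤ ((n : ℝ) + 1) ^ (-κ') := by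
    intro n
    rw [norm_cpow', Complex.neg_re]
    exact Real.rpow_le_rpow_of_exponent_le (hn1 n) (by linarith)
  have hmul : ∀ n : ℕ, ((n : ℝ) + 1) ^ (-(1 / 2) + ε) * ((n : ℝ) + 1) ^ (-κ') = a n := by
    intro n
    rw [← Real.rpow_add (by linarith [hn1 n])]
    show _ = ((n : ℝ) + 1) ^ (-σ)
    congr 1
    rw [hσ]
    ring
  have hτ1 : ∀ n : ℕ, ‖τ (n + 1)‖ ≤ |C| * ((n : ℝ) + 1) ^ (-κ') := by
    intro n
    have h := hτ (n + 1) (Nat.succ_le_succ (Nat.zero_le n))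
    push_cast at h
    exact h.trans (mul_le_mul_of_nonneg_right (le_abs_self C) (by positivity))
  set d : ℕ → ℂ := fun n => ((n : ℂ) + 1) ^ (-(1 / 2) - I * z) *
    (τ (n + 1) - ((n : ℂ) + 1) ^ (-q)) with hd
  have hd1 : ∀ n, ‖d n‖ ≤ (|C| + 1) * a n := by
    intro n
    have h1 : ‖τ (n + 1) - ((n : ℂ) + 1) ^ (-q)‖ ≤ (|C| + 1) * ((n : ℝ) + 1) ^ (-κ') := by
      refine (norm_sub_le _ _).trans ?_
      linarith [hτ1 n, hq1 n]
    calc ‖d n‖ = ‖((n : ℂ) + 1) ^ (-(1 / 2) - I * z)‖ * ‖τ (n + 1) - ((n : ℂ) + 1) ^ (-q)‖ :=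
          norm_mul _ _
      _ ≤ ((n : ℝ) + 1) ^ (-(1 / 2) + ε) * ((|C| + 1) * ((n : ℝ) + 1) ^ (-κ')) :=
          mul_le_mul (hz1 n) h1 (norm_nonneg _) (by positivity)
      _ = (|C| + 1) * a n := by rw [← hmul n]; ring
  have hd2 : ∀ n ∈ range N, ‖d n‖ ≤ c1 / (4 * (PN + 1)) * ((n : ℝ) + 1) ^ (-(1 / 2) + ε) := by
    intro n hn
    rw [mem_range] at hn
    have h1 := hη (n + 1) (Nat.succ_le_succ (Nat.zero_le n)) hn
    push_cast at h1
    calc ‖d n‖ = ‖((n : ℂ) + 1) ^ (-(1 / 2) - I * z)‖ * ‖τ (n + 1) - ((n : ℂ) + 1) ^ (-q)‖ :=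
          norm_mul _ _
      _ ≤ ((n : ℝ) + 1) ^ (-(1 / 2) + ε) * (c1 / (4 * (PN + 1))) :=
          mul_le_mul (hz1 n) h1 (norm_nonneg _) (by positivity)
      _ = _ := by ring
  have hdsum : Summable d := Summable.of_norm_bounded (hasum.mul_left (|C| + 1)) hd1
  have hdb : ‖∑' n, d n‖ ≤ c1 / 2 := by
    rw [← hdsum.sum_add_tsum_nat_add N]
    refine (norm_add_le _ _).trans ?_
    have h1 : ‖∑ n ∈ range N, d n‖ ≤ c1 / 4 := by
      refine (norm_sum_le _ _).trans ((sum_le_sum hd2).trans ?_)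
      rw [← mul_sum, ← hPN, div_mul_eq_mul_div, div_le_div_iff₀ (by positivity) (by norm_num)]
      nlinarith
    have h2 : ‖∑' n, d (n + N)‖ ≤ c1 / 4 := by
      have h3 : Summable fun n => a (n + N) := (summable_nat_add_iff N).2 hasum
      have h4 := tsum_of_norm_bounded (h3.mul_left (|C| + 1)).hasSum fun n => hd1 (n + N)
      refine h4.trans ?_
      rw [tsum_mul_left]
      have h5 := mul_le_mul_of_nonneg_left hN.le hC0.le
      refine h5.trans (le_of_eq ?_)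
      field_simp
    linarith
  -- the main term
  set t : ℕ → ℂ := fun n => 1 / ((n : ℂ) + 1) ^ s with ht
  have hteq : ∀ n : ℕ, ((n : ℂ) + 1) ^ (-(1 / 2) - I * z) * ((n : ℂ) + 1) ^ (-q) = t n := by
    intro n
    have h0 : ((n : ℂ) + 1) ≠ 0 := by exact_mod_cast Nat.succ_ne_zero n
    rw [← Complex.cpow_add _ _ h0]
    show _ = 1 / ((n : ℂ) + 1) ^ s
    have e : -(1 / 2) - I * z + -q = -s := by
      rw [hs]
      ring
    rw [e, Complex.cpow_neg]
    exact (one_div _).symm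
  have htsum : Summable t := by
    refine Summable.of_norm_bounded hasum fun n => ?_
    rw [← hteq n, norm_mul, ← hmul n]
    exact mul_le_mul (hz1 n) (hq1 n) (norm_nonneg _) (by positivity)
  have hsplit : ∑' n : ℕ, ((n : ℂ) + 1) ^ (-(1 / 2) - I * z) * τ (n + 1) =
      riemannZeta s + ∑' n, d n := by
    rw [zeta_eq_tsum_one_div_nat_add_one_cpow (lt_of_lt_of_le hσ1 hsre), ← htsum.tsum_add hdsum]
    refine tsum_congr fun n => ?_
    rw [← hteq n]
    show _ = _ + ((n : ℂ) + 1) ^ (-(1 / 2) - I * z) * (τ (n + 1) - ((n : ℂ) + 1) ^ (-q))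
    ring
  rw [hsplit]
  have h6 := hzeta s hsre
  have h7 : ‖riemannZeta s‖ ≤ ‖riemannZeta s + ∑' n, d n‖ + ‖∑' n, d n‖ := by
    have := norm_sub_le (riemannZeta s + ∑' n, d n) (∑' n, d n)
    rwa [add_sub_cancel_right] at this
  linarith

end Pool.Agent.N713.KL
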